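import Pool.Agent.L7h62.HT.Stm

set_option autoImplicit false

/-! Project HT: `S_AX` (Ax's lemma). -/

namespace Pool.Agent.L7h37.HT

open Pool.Agent.L7h62.HT Pool.Agent.W292.FM Polynomial

section Abs

variable {F : Type} [NormedField F] [IsUltrametricDist F]

theorem coeff_bound (r : ℝ) (hr : 0 ≤ r) (s : Multiset F) (hs : ∀ y ∈ s, ‖y‖ ≤ r) :
    ∀ k, k ≤ Multiset.card s →
      ‖((s.map (fun y => X - C y)).prod).coeff k‖ ≤ r ^ (Multiset.card s - k) := by
  induction s using Multiset.induction_on with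
  | empty =>
    intro k hk
    have : k = 0 := by simpa using hk
    subst this
    simp
  | cons a s ih =>
    have ih' := ih fun y hy => hs y (Multiset.mem_cons_of_mem hy)
    have ha : ‖a‖ ≤ r := hs a (Multiset.mem_cons_self _ _)
    set G := (s.map (fun y => X - C y)).prod with hG
    have hGd : G.natDegree = Multiset.card s := natDegree_multiset_prod_X_sub_C_eq_card s
    intro k hk
    rw [Multiset.map_cons, Multiset.prod_cons, Multiset.card_cons]
    rw [Multiset.card_cons] at hk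
    rcases k with _ | k
    · rw [sub_mul, coeff_sub, coeff_C_mul, coeff_X_mul_zero, zero_sub, norm_neg, norm_mul,
        Nat.sub_zero, pow_succ, mul_comm]
      have := ih' 0 (Nat.zero_le _)
      rw [Nat.sub_zero] at this
      exact mul_le_mul this ha (norm_nonneg _) (by positivity)
    · rw [sub_mul, coeff_sub, coeff_C_mul, coeff_X_mul, Nat.add_sub_add_right, sub_eq_add_neg]
      refine (IsUltrametricDist.norm_add_le_max _ _).trans (max_le (ih' k (by omega)) ?_)
      rw [norm_neg, norm_mul]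
      by_cases h : k + 1 ≤ Multiset.card s
      · have h1 := ih' (k + 1) h
        have h2 : Multiset.card s - k = (Multiset.card s - (k + 1)) + 1 := by omega
        rw [h2, pow_succ, mul_comm]
        exact mul_le_mul h1 ha (norm_nonneg _) (by positivity)
      · rw [coeff_eq_zero_of_natDegree_lt (by rw [← hG, hGd]; omega), norm_zero, mul_zero]
        positivity

theorem prod_gt (R : ℝ) (hR : 0 ≤ R) (s : Multiset ℝ) (hs : ∀ y ∈ s, R < y) :
    R ^ Multiset.card s ≤ s.prod ∧ (s ≠ 0 → R ^ Multiset.card s < s.prod) := by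
  induction s using Multiset.induction_on with
  | empty => simp
  | cons a s ih =>
    obtain ⟨h1, -⟩ := ih fun y hy => hs y (Multiset.mem_cons_of_mem hy)
    have ha : R < a := hs a (Multiset.mem_cons_self _ _)
    have h2 : 0 < s.prod := by
      refine Multiset.prod_pos fun y hy => ?_
      exact hR.trans_lt (hs y (Multiset.mem_cons_of_mem hy))
    have h3 : R ^ Multiset.card (a ::ₘ s) < (a ::ₘ s).prod := by
      rw [Multiset.card_cons, Multiset.prod_cons, pow_succ, mul_comm]
      calc R * R ^ Multiset.card s ≤ R * s.prod := mul_le_mul_of_nonneg_left h1 hR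
        _ < a * s.prod := mul_lt_mul_of_pos_right ha h2
    exact ⟨h3.le, fun _ => h3⟩

omit [IsUltrametricDist F] in
theorem exists_near (R : ℝ) (hR : 0 ≤ R) (s : Multiset F) (α : F) (hs : s ≠ 0)
    (h : (s.map (fun y => ‖α - y‖)).prod ≤ R ^ Multiset.card s) : ∃ y ∈ s, ‖α - y‖ ≤ R := by
  by_contra hc
  push Not at hc
  have h1 := (prod_gt R hR (s.map (fun y => ‖α - y‖)) (fun y hy => by
    obtain ⟨z, hz, rfl⟩ := Multiset.mem_map.1 hy
    exact hc z hz)).2 (by simpa using hs)
  rw [Multiset.card_map] at h1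
  exact absurd h1 (not_lt.2 h)

end Abs

theorem choose_unit {l : ℕ} (hl : l.Prime) (v u : ℕ) (hu : ¬ l ∣ u) :
    ¬ l ∣ (l ^ v * u).choose (l ^ v) := by
  have := Fact.mk hl
  induction v with
  | zero => simpa using hu
  | succ v ih =>
    have h1 := Choose.choose_modEq_choose_mod_mul_choose_div_nat (n := l ^ (v + 1) * u)
      (k := l ^ (v + 1)) (p := l)
    have e1 : l ^ (v + 1) * u = l * (l ^ v * u) := by ring
    have e2 : l ^ (v + 1) = l * l ^ v := by ring
    rw [e1, e2, Nat.mul_mod_right, Nat.mul_mod_right, Nat.mul_div_cancel_left _ hl.pos,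
      Nat.mul_div_cancel_left _ hl.pos, Nat.choose_self, one_mul] at h1
    rw [e1, e2]
    intro h2
    exact ih ((h1.dvd_iff dvd_rfl).1 h2)

theorem choose_pow {l : ℕ} (hl : l.Prime) (m : ℕ) :
    ∃ w, (l ^ (m + 1)).choose (l ^ m) = l * w ∧ ¬ l ∣ w := by
  have h1 := Nat.factorization_choose_prime_pow_add_factorization (n := m + 1) (k := l ^ m) hl
    (Nat.pow_le_pow_right hl.pos (Nat.le_succ m)) (pow_ne_zero m hl.ne_zero)
  rw [hl.factorization_pow, Finsupp.single_eq_same] at h1
  have h2 : ((l ^ (m + 1)).choose (l ^ m)).factorization l = 1 := by omega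
  have h3 := Nat.ordProj_mul_ordCompl_eq_self ((l ^ (m + 1)).choose (l ^ m)) l
  have h4 : (l ^ (m + 1)).choose (l ^ m) ≠ 0 :=
    (Nat.choose_pos (Nat.pow_le_pow_right hl.pos (Nat.le_succ m))).ne'
  have h5 := Nat.not_dvd_ordCompl hl h4
  rw [h2, pow_one] at h3 h5
  exact ⟨_, h3.symm, h5⟩

variable (ℓ : ℕ) [hℓ : Fact ℓ.Prime]

theorem norm_natA (n : ℕ) : ‖(n : PadicAlgCl ℓ)‖ = ‖(n : ℚ_[ℓ])‖ := by
  rw [← PadicAlgCl.norm_extends]
  congr 1

theorem ax_step (K : IntermediateField ℚ_[ℓ] (PadicAlgCl ℓ)) (α : PadicAlgCl ℓ) (r : ℝ)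
    (h : ∀ σ : GLo ℓ, (∀ x ∈ K, σ x = x) → ‖σ α - α‖ ≤ r) (q : ℕ)
    (hq : q < (minpoly K α).natDegree) (R : ℝ) (hR : 0 ≤ R)
    (hRr : r ^ ((minpoly K α).natDegree - q) ≤
      ‖(((minpoly K α).natDegree.choose q : ℕ) : PadicAlgCl ℓ)‖ *
        R ^ ((minpoly K α).natDegree - q)) :
    ∃ β : PadicAlgCl ℓ, ‖α - β‖ ≤ R ∧
      (minpoly K β).natDegree ≤ (minpoly K α).natDegree - q := by
  classical
  have hr0 : 0 ≤ r := (norm_nonneg _).trans (h 1 fun x _ => rfl)
  have : Normal ℚ_[ℓ] (PadicAlgCl ℓ) := inferInstance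
  have : Normal K (PadicAlgCl ℓ) := Normal.tower_top_of_normal ℚ_[ℓ] K (PadicAlgCl ℓ)
  have : Algebra.IsAlgebraic K (PadicAlgCl ℓ) := Algebra.IsAlgebraic.tower_top (K := ℚ_[ℓ]) K
  have hint : IsIntegral K α := (Algebra.IsAlgebraic.isAlgebraic α).isIntegral
  set P := minpoly K α with hP
  have hPm : P.Monic := minpoly.monic hint
  set n := P.natDegree with hn
  set PA : (PadicAlgCl ℓ)[X] := P.map (algebraMap K (PadicAlgCl ℓ)) with hPA
  have hPAm : PA.Monic := hPm.map _
  have hPAn : PA.natDegree = n := by rw [hPA, natDegree_map]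
  have hPAs : PA = (PA.roots.map (fun x => X - C x)).prod :=
    (IsAlgClosed.splits PA).eq_prod_roots_of_monic hPAm
  have hPAc : Multiset.card PA.roots = n := by
    rw [← hPAn]
    exact (splits_iff_card_roots.1 (IsAlgClosed.splits PA))
  have hroot : ∀ x ∈ PA.roots, ‖x - α‖ ≤ r := by
    intro x hx
    have h1 : aeval x (minpoly K α) = 0 := by
      have := (mem_roots hPAm.ne_zero).1 hx
      rwa [IsRoot.def, hPA, eval_map_algebraMap] at this
    obtain ⟨σ, hσ⟩ := minpoly.exists_algEquiv_of_root' (Algebra.IsAlgebraic.isAlgebraic α) h1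
    rw [← hσ]
    exact h (σ.restrictScalars ℚ_[ℓ]) fun y hy => σ.commutes ⟨y, hy⟩
  -- the value of the Hasse derivative
  have hval : ‖(hasseDeriv q PA).eval α‖ ≤ r ^ (n - q) := by
    rw [← taylor_coeff]
    have e1 : taylor α PA = ((PA.roots.map (fun x => x - α)).map (fun y => X - C y)).prod := by
      conv_lhs => rw [hPAs]
      rw [taylor_apply, multiset_prod_comp, Multiset.map_map, Multiset.map_map]
      congr 1
      refine Multiset.map_congr rfl fun x _ => ?_
      simp only [Function.comp_apply, sub_comp, X_comp, C_comp, C_sub]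
      ring
    rw [e1]
    have h2 := coeff_bound r hr0 (PA.roots.map (fun x => x - α)) (fun y hy => by
      obtain ⟨x, hx, rfl⟩ := Multiset.mem_map.1 hy
      exact hroot x hx) q (by rw [Multiset.card_map, hPAc]; exact hq.le)
    rwa [Multiset.card_map, hPAc] at h2
  -- the roots of the Hasse derivative
  set Q : K[X] := hasseDeriv q P with hQ
  have hQn : Q.natDegree = n - q := natDegree_hasseDeriv P q
  have hQl : Q.coeff (n - q) = (n.choose q : ℕ) := by
    rw [hQ, hasseDeriv_coeff, Nat.sub_add_cancel hq.le]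
    have : P.coeff n = 1 := hPm
    rw [this, mul_one]
  have hch : n.choose q ≠ 0 := (Nat.choose_pos hq.le).ne'
  have hQ0 : Q ≠ 0 := by
    intro e
    rw [e, coeff_zero] at hQl
    exact hch (by exact_mod_cast hQl.symm)
  set QA : (PadicAlgCl ℓ)[X] := Q.map (algebraMap K (PadicAlgCl ℓ)) with hQA
  have hQAe : QA = hasseDeriv q PA := by
    ext i
    rw [hQA, coeff_map, hQ, hasseDeriv_coeff, hasseDeriv_coeff, hPA, coeff_map, map_mul,
      map_natCast]
  have hQAn : QA.natDegree = n - q := by rw [hQA, natDegree_map, hQn]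
  have hQA0 : QA ≠ 0 := by rw [hQA]; exact (Polynomial.map_ne_zero_iff (algebraMap K _).injective).2 hQ0
  have hQAl : QA.leadingCoeff = (n.choose q : ℕ) := by
    rw [leadingCoeff, hQAn, hQA, coeff_map, hQl, map_natCast]
  have hQAc : Multiset.card QA.roots = n - q := by
    rw [← hQAn]
    exact (splits_iff_card_roots.1 (IsAlgClosed.splits QA))
  have hQAs : QA = C QA.leadingCoeff * (QA.roots.map (fun x => X - C x)).prod :=
    (IsAlgClosed.splits QA).eq_prod_roots
  have hev : ‖QA.eval α‖ = ‖((n.choose q : ℕ) : PadicAlgCl ℓ)‖ *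
      (QA.roots.map (fun y => ‖α - y‖)).prod := by
    conv_lhs => rw [hQAs]
    rw [eval_mul, eval_C, eval_multiset_prod, norm_mul, hQAl, Multiset.map_map]
    congr 1
    have e2 : ∀ s : Multiset (PadicAlgCl ℓ), ‖s.prod‖ = (s.map norm).prod := fun s =>
      map_multiset_prod (normHom (α := PadicAlgCl ℓ)) s
    rw [e2, Multiset.map_map]
    congr 1
    refine Multiset.map_congr rfl fun x _ => ?_
    simp
  have hchA : 0 < ‖((n.choose q : ℕ) : PadicAlgCl ℓ)‖ := norm_pos_iff.2 (by exact_mod_cast hch)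
  obtain ⟨β, hβ, hαβ⟩ := exists_near R hR QA.roots α (by
    intro e
    rw [e, Multiset.card_zero] at hQAc
    omega) (by
    rw [hQAc]
    refine le_of_mul_le_mul_left ?_ hchA
    rw [← hev, hQAe]
    exact hval.trans hRr)
  refine ⟨β, hαβ, ?_⟩
  rw [← hQn]
  refine natDegree_le_of_dvd (minpoly.dvd K β ?_) hQ0
  have := (mem_roots hQA0).1 hβ
  rwa [IsRoot.def, hQA, eval_map_algebraMap] at this

theorem s_AX : S_AX ℓ := by
  classical
  have hl1 : (1 : ℝ) < ℓ := by exact_mod_cast hℓ.out.one_lt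
  have hl0 : (0 : ℝ) < ℓ := by linarith
  refine ⟨(ℓ : ℝ) ^ (2 : ℝ), by positivity, ?_⟩
  intro K
  have : Algebra.IsAlgebraic K (PadicAlgCl ℓ) := Algebra.IsAlgebraic.tower_top (K := ℚ_[ℓ]) K
  have hint : ∀ α : PadicAlgCl ℓ, IsIntegral K α := fun α =>
    (Algebra.IsAlgebraic.isAlgebraic α).isIntegral
  let D : ℕ → ℝ := fun m => (ℓ : ℝ) ^ (2 - 2 / (2 : ℝ) ^ m)
  have hD1 : ∀ m, 1 ≤ D m := by
    intro m
    refine Real.one_le_rpow hl1.le ?_
    have : 2 / (2 : ℝ) ^ m ≤ 2 := div_le_self (by norm_num) (one_le_pow₀ (by norm_num))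
    linarith
  have hDmono : ∀ m m', m ≤ m' → D m ≤ D m' := by
    intro m m' h
    refine Real.rpow_le_rpow_of_exponent_le hl1.le ?_
    have : 2 / (2 : ℝ) ^ m' ≤ 2 / (2 : ℝ) ^ m := by gcongr; norm_num
    linarith
  have hD2 : ∀ m, D m ≤ (ℓ : ℝ) ^ (2 : ℝ) := by
    intro m
    refine Real.rpow_le_rpow_of_exponent_le hl1.le ?_
    have : 0 ≤ 2 / (2 : ℝ) ^ m := by positivity
    linarith
  have key : ∀ n : ℕ, ∀ (α : PadicAlgCl ℓ) (r : ℝ), (minpoly K α).natDegree = n →
      (∀ σ : GLo ℓ, (∀ x ∈ K, σ x = x) → ‖σ α - α‖ ≤ r) →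
      ∃ a ∈ K, ‖α - a‖ ≤ D (Nat.log ℓ n) * r := by
    intro n
    induction n using Nat.strong_induction_on with
    | _ n ih =>
      intro α r hn h
      have hr0 : 0 ≤ r := (norm_nonneg _).trans (h 1 fun x _ => rfl)
      have hnpos : 0 < n := hn ▸ minpoly.natDegree_pos (hint α)
      by_cases hn1 : n = 1
      · rw [hn1] at hn
        obtain ⟨a, ha⟩ := minpoly.natDegree_eq_one_iff.1 hn
        refine ⟨a, a.2, ?_⟩
        have : α - a = 0 := by rw [← ha]; exact sub_self _
        rw [this, norm_zero]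
        exact mul_nonneg (zero_le_one.trans (hD1 _)) hr0
      -- the general step
      have gen : ∀ (q : ℕ) (R : ℝ), q < n → 0 < q → r ≤ R →
          r ^ (n - q) ≤ ‖((n.choose q : ℕ) : PadicAlgCl ℓ)‖ * R ^ (n - q) →
          ∃ n' < n, 0 < n' ∧ ∃ a ∈ K, ‖α - a‖ ≤ D (Nat.log ℓ n') * R := by
        intro q R hq hq0 hrR hRr
        have hR0 : 0 ≤ R := hr0.trans hrR
        obtain ⟨β, hβ1, hβ2⟩ := ax_step ℓ K α r h q (hn ▸ hq) R hR0 (by rw [hn]; exact hRr)
        rw [hn] at hβ2
        have hβn : (minpoly K β).natDegree < n := by omega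
        obtain ⟨a, haK, ha⟩ := ih _ hβn β R rfl (fun σ hσ => by
          have e : σ β - β = (σ β - σ α) + ((σ α - α) + (α - β)) := by abel
          rw [e]
          refine (IsUltrametricDist.norm_add_le_max _ _).trans (max_le ?_
            ((IsUltrametricDist.norm_add_le_max _ _).trans (max_le ((h σ hσ).trans hrR) hβ1)))
          rw [← map_sub, norm_gal, norm_sub_rev]
          exact hβ1)
        refine ⟨_, hβn, minpoly.natDegree_pos (hint β), a, haK, ?_⟩
        have e : α - a = (α - β) + (β - a) := by abel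
        rw [e]
        refine (IsUltrametricDist.norm_add_le_max _ _).trans (max_le ?_ ha)
        exact hβ1.trans (le_mul_of_one_le_left hR0 (hD1 _))
      obtain ⟨v, u, hu, hvu⟩ := Nat.exists_eq_pow_mul_and_not_dvd hnpos.ne' ℓ hℓ.out.ne_one
      by_cases hu1 : u = 1
      · rw [hu1, mul_one] at hvu
        obtain ⟨m, rfl⟩ : ∃ m, v = m + 1 := by
          rcases v with _ | m
          · exact absurd (by simpa using hvu) hn1
          · exact ⟨m, rfl⟩
        set d := n - ℓ ^ m with hd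
        have hd1 : d = ℓ ^ m * (ℓ - 1) := by
          rw [hd, hvu, pow_succ, Nat.mul_sub, mul_one]
        have hl2 : 1 ≤ ℓ - 1 := by have := hℓ.out.two_le; omega
        have hd2 : 2 ^ m ≤ d := by
          rw [hd1]
          calc 2 ^ m ≤ ℓ ^ m := Nat.pow_le_pow_left hℓ.out.two_le m
            _ ≤ ℓ ^ m * (ℓ - 1) := Nat.le_mul_of_pos_right _ hl2
        have hd0 : 0 < d := lt_of_lt_of_le (by positivity) hd2
        have hdr : (0 : ℝ) < d := by exact_mod_cast hd0
        have hR : r ≤ (ℓ : ℝ) ^ (1 / (d : ℝ)) * r :=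
          le_mul_of_one_le_left hr0 (Real.one_le_rpow hl1.le (by positivity))
        obtain ⟨n', hn', hn'0, a, haK, ha⟩ := gen (ℓ ^ m) ((ℓ : ℝ) ^ (1 / (d : ℝ)) * r)
          (by rw [hvu]; exact Nat.pow_lt_pow_right hℓ.out.one_lt (Nat.lt_succ_self m))
          (pow_pos hℓ.out.pos m) hR (by
            rw [← hd]
            obtain ⟨w, hw, hw'⟩ := choose_pow hℓ.out m
            have e1 : ‖((n.choose (ℓ ^ m) : ℕ) : PadicAlgCl ℓ)‖ = (ℓ : ℝ)⁻¹ := by
              rw [hvu, hw, norm_natA, Nat.cast_mul, norm_mul, Padic.norm_p,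
                Padic.norm_natCast_eq_one_iff.2
                  ((Nat.Prime.coprime_iff_not_dvd hℓ.out).2 hw'), mul_one]
            have e2 : ((ℓ : ℝ) ^ (1 / (d : ℝ))) ^ d = ℓ := by
              rw [← Real.rpow_natCast, ← Real.rpow_mul hl0.le, one_div_mul_cancel hdr.ne',
                Real.rpow_one]
            rw [e1, mul_pow, e2, ← mul_assoc, inv_mul_cancel₀ hl0.ne', one_mul])
        refine ⟨a, haK, ha.trans ?_⟩
        have hlog : Nat.log ℓ n = m + 1 := by
          rw [hvu, Nat.log_pow hℓ.out.one_lt]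
        have hlog' : Nat.log ℓ n' ≤ m := by
          have : Nat.log ℓ n' < m + 1 := Nat.log_lt_of_lt_pow hn'0.ne' (hvu ▸ hn')
          omega
        rw [hlog, ← mul_assoc]
        refine mul_le_mul_of_nonneg_right ?_ hr0
        calc D (Nat.log ℓ n') * (ℓ : ℝ) ^ (1 / (d : ℝ)) ≤ D m * (ℓ : ℝ) ^ (1 / (d : ℝ)) :=
              mul_le_mul_of_nonneg_right (hDmono _ _ hlog') (by positivity)
          _ = (ℓ : ℝ) ^ ((2 - 2 / (2 : ℝ) ^ m) + 1 / (d : ℝ)) := (Real.rpow_add hl0 _ _).symm
          _ ≤ D (m + 1) := by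
              refine Real.rpow_le_rpow_of_exponent_le hl1.le ?_
              have h1 : 1 / (d : ℝ) ≤ 1 / (2 : ℝ) ^ m := by
                refine one_div_le_one_div_of_le (by positivity) ?_
                exact_mod_cast hd2
              have h2 : 2 / (2 : ℝ) ^ (m + 1) = 1 / (2 : ℝ) ^ m := by
                rw [pow_succ]
                field_simp
              have h3 : 2 / (2 : ℝ) ^ m = 1 / (2 : ℝ) ^ m + 1 / (2 : ℝ) ^ m := by ring
              rw [h2, h3]
              linarith
      · have hu2 : 1 < u := by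
          rcases u with _ | _ | u
          · exact absurd (dvd_zero ℓ) hu
          · exact absurd rfl hu1
          · omega
        obtain ⟨n', hn', hn'0, a, haK, ha⟩ := gen (ℓ ^ v) r
          (by rw [hvu]; exact lt_mul_of_one_lt_right (pow_pos hℓ.out.pos v) hu2)
          (pow_pos hℓ.out.pos v) le_rfl (by
            have e1 : ‖((n.choose (ℓ ^ v) : ℕ) : PadicAlgCl ℓ)‖ = 1 := by
              rw [hvu, norm_natA]
              exact Padic.norm_natCast_eq_one_iff.2
                ((Nat.Prime.coprime_iff_not_dvd hℓ.out).2 (choose_unit hℓ.out v u hu))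
            rw [e1, one_mul])
        exact ⟨a, haK, ha.trans (mul_le_mul_of_nonneg_right
          (hDmono _ _ (Nat.log_mono_right hn'.le)) hr0)⟩
  intro α r h
  obtain ⟨a, haK, ha⟩ := key _ α r rfl h
  have hr0 : 0 ≤ r := (norm_nonneg _).trans (h 1 fun x _ => rfl)
  exact ⟨a, haK, ha.trans (mul_le_mul_of_nonneg_right (hD2 _) hr0)⟩

end Pool.Agent.L7h37.HT
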