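import Pool.Agent.L7h62.HT.Stm

set_option autoImplicit false

/-! Project HT: `S_SUB` (graded subspaces). -/

namespace Pool.Agent.L7h37.HT

open Pool.Agent.L7h62.HT Module Matrix

/-- Independent rows. -/
theorem exists_rows {C : Type} [Field C] {n k : ℕ} (R : Matrix (Fin n) (Fin k) C)
    (hR : Function.Injective R.mulVec) : ∃ f : Fin k ↪ Fin n, IsUnit (R.submatrix f id) := by
  classical
  obtain ⟨κ, a, ha, hspan, hli⟩ := exists_linearIndependent' C R.row
  have : Fintype κ := Fintype.ofInjective a ha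
  have hrk : R.rank = k := by
    rw [Matrix.rank, LinearMap.finrank_range_of_inj (by rw [coe_mulVecLin]; exact hR)]
    simp
  have h1 : finrank C (Submodule.span C (Set.range (R.row ∘ a))) = k := by
    rw [hspan, ← rank_eq_finrank_span_row, hrk]
  have h2 : Fintype.card κ = k := by
    rw [← finrank_span_eq_card hli, h1]
  let e : Fin k ≃ κ := (Fintype.equivFinOfCardEq h2).symm
  refine ⟨⟨a ∘ e, ha.comp e.injective⟩, ?_⟩
  rw [← linearIndependent_rows_iff_isUnit]
  exact hli.comp e e.injective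

theorem s_SUB : S_SUB := by
  classical
  intro C _ D _ s χ hχ hsχ h0 n k M P h hP hM β hβ hβs A hA
  have hPu : IsUnit P.det := isUnit_iff_ne_zero.2 hP
  obtain ⟨R, hR⟩ : ∃ R : Matrix (Fin n) (Fin k) C, R = P⁻¹ * β := ⟨_, rfl⟩
  have hPR : P * R = β := by rw [hR, ← Matrix.mul_assoc, mul_nonsing_inv _ hPu, Matrix.one_mul]
  have hRinj : Function.Injective R.mulVec := by
    intro x y hxy
    apply hβ
    rw [← hPR, ← mulVec_mulVec, ← mulVec_mulVec, hxy]
  obtain ⟨f, hf⟩ := exists_rows R hRinj
  set Rf : Matrix (Fin k) (Fin k) C := R.submatrix f id with hRf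
  have hfd : IsUnit Rf.det := (Matrix.isUnit_iff_isUnit_det _).1 hf
  have hQ1 : Rf * Rf⁻¹ = 1 := mul_nonsing_inv _ hfd
  have hQ2 : Rf⁻¹ * Rf = 1 := nonsing_inv_mul _ hfd
  -- (1)
  have e1 : ∀ g, diagonal (fun i => χ g ^ (-h i)) * R.map (s g) = R * A g := by
    intro g
    have h1 : P * (diagonal (fun i => χ g ^ (-h i)) * R.map (s g)) = P * (R * A g) := by
      rw [← Matrix.mul_assoc, ← hM g, ← Matrix.mul_assoc, hPR, ← hA g, Matrix.mul_assoc,
        ← Matrix.map_mul, hPR, hβs g]
    have h2 := congrArg (fun X => P⁻¹ * X) h1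
    simpa only [← Matrix.mul_assoc, nonsing_inv_mul _ hPu, Matrix.one_mul] using h2
  have e2 : ∀ g, diagonal (fun j => χ g ^ (-h (f j))) * Rf.map (s g) = Rf * A g := by
    intro g
    ext i j
    have := congrFun (congrFun (e1 g) (f i)) j
    rw [diagonal_mul] at this ⊢
    exact this
  have e3 : ∀ g, A g * Rf⁻¹.map (s g) = Rf⁻¹ * diagonal (fun j => χ g ^ (-h (f j))) := by
    intro g
    have h1 : Rf.map (s g) * Rf⁻¹.map (s g) = 1 := by
      rw [← Matrix.map_mul, hQ1]
      exact Matrix.map_one _ (map_zero _) (map_one _)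
    calc A g * Rf⁻¹.map (s g) = Rf⁻¹ * (Rf * A g) * Rf⁻¹.map (s g) := by
          rw [← Matrix.mul_assoc Rf⁻¹, hQ2, Matrix.one_mul]
      _ = Rf⁻¹ * diagonal (fun j => χ g ^ (-h (f j))) * (Rf.map (s g) * Rf⁻¹.map (s g)) := by
          rw [← e2 g]
          simp only [Matrix.mul_assoc]
      _ = _ := by rw [h1, Matrix.mul_one]
  refine ⟨f, Rf⁻¹, ?_, e3, ?_⟩
  · rw [det_nonsing_inv]
    exact (isUnit_ringInverse.2 hfd).ne_zero
  obtain ⟨S, hS⟩ : ∃ S : Matrix (Fin n) (Fin k) C, S = R * Rf⁻¹ := ⟨_, rfl⟩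
  have hSf : ∀ i j, S (f i) j = (1 : Matrix (Fin k) (Fin k) C) i j := by
    intro i j
    rw [← hQ1, hS]
    rfl
  have e4 : ∀ g, diagonal (fun i => χ g ^ (-h i)) * S.map (s g) =
      S * diagonal (fun j => χ g ^ (-h (f j))) := by
    intro g
    rw [hS, Matrix.map_mul, ← Matrix.mul_assoc, e1 g, Matrix.mul_assoc R (A g), e3 g,
      ← Matrix.mul_assoc]
  have hS0 : ∀ i j, h i ≠ h (f j) → S i j = 0 := by
    intro i j hij
    refine h0 (h i - h (f j)) (sub_ne_zero.2 hij) _ fun g => ?_
    have := congrFun (congrFun (e4 g) i) j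
    rw [diagonal_mul, mul_diagonal, Matrix.map_apply] at this
    rw [zpow_sub₀ (hχ g), div_mul_eq_mul_div, eq_div_iff (zpow_ne_zero _ (hχ g))]
    have h1 : χ g ^ (h i) * χ g ^ (-h i) = 1 := by rw [← zpow_add₀ (hχ g)]; simp
    have h2 : χ g ^ (h (f j)) * χ g ^ (-h (f j)) = 1 := by rw [← zpow_add₀ (hχ g)]; simp
    calc s g (S i j) * χ g ^ h (f j)
        = χ g ^ (h i) * (χ g ^ (-h i) * s g (S i j)) * χ g ^ h (f j) := by
          rw [← mul_assoc (χ g ^ (h i)), h1, one_mul]
      _ = χ g ^ (h i) * S i j * (χ g ^ (h (f j)) * χ g ^ (-h (f j))) := by rw [this]; ring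
      _ = χ g ^ (h i) * S i j := by rw [h2, mul_one]
  intro J w hJ hJs hJM hβJ t
  set b : Matrix (Fin n) (Fin n) C := Pᵀ * J * P with hb
  have e5 : ∀ g, χ g ^ (-w) • b.map (s g) =
      diagonal (fun i => χ g ^ (-h i)) * b * diagonal (fun i => χ g ^ (-h i)) := by
    intro g
    have h1 : (M g * P.map (s g))ᵀ * J * (M g * P.map (s g)) =
        diagonal (fun i => χ g ^ (-h i)) * b * diagonal (fun i => χ g ^ (-h i)) := by
      rw [hM g, transpose_mul, diagonal_transpose, hb]
      simp only [Matrix.mul_assoc]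
    rw [← h1, transpose_mul]
    calc χ g ^ (-w) • b.map (s g) = (P.map (s g))ᵀ * (χ g ^ (-w) • J) * P.map (s g) := by
          rw [hb, Matrix.map_mul, Matrix.map_mul, hJs g, Matrix.mul_smul, Matrix.smul_mul,
            Matrix.transpose_map]
      _ = (P.map (s g))ᵀ * ((M g)ᵀ * J * M g) * P.map (s g) := by rw [hJM g]
      _ = _ := by simp only [Matrix.mul_assoc]
  have hb0 : ∀ i j, h i + h j ≠ w → b i j = 0 := by
    intro i j hij
    refine h0 (w - h i - h j) (by omega) _ fun g => ?_
    have := congrFun (congrFun (e5 g) i) j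
    rw [mul_diagonal, diagonal_mul, Matrix.smul_apply, Matrix.map_apply, smul_eq_mul] at this
    have h1 : χ g ^ w * χ g ^ (-w) = 1 := by rw [← zpow_add₀ (hχ g)]; simp
    have h2 : χ g ^ (w - h i - h j) = χ g ^ w * (χ g ^ (-h i) * χ g ^ (-h j)) := by
      rw [← zpow_add₀ (hχ g), ← zpow_add₀ (hχ g)]
      congr 1
      ring
    calc s g (b i j) = χ g ^ w * (χ g ^ (-w) * s g (b i j)) := by
          rw [← mul_assoc, h1, one_mul]
      _ = χ g ^ (w - h i - h j) * b i j := by rw [this, h2]; ring
  have hbd : IsUnit b.det := by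
    rw [hb, det_mul, det_mul, det_transpose]
    exact isUnit_iff_ne_zero.2 (mul_ne_zero (mul_ne_zero hP hJ) hP)
  have hSbS : Sᵀ * (b * S) = 0 := by
    have h1 : P * S = β * Rf⁻¹ := by rw [hS, ← Matrix.mul_assoc, hPR]
    calc Sᵀ * (b * S) = (P * S)ᵀ * J * (P * S) := by
          rw [hb, transpose_mul]
          simp only [Matrix.mul_assoc]
      _ = (Rf⁻¹)ᵀ * (βᵀ * J * β) * Rf⁻¹ := by
          rw [h1, transpose_mul]
          simp only [Matrix.mul_assoc]
      _ = 0 := by rw [hβJ, Matrix.mul_zero, Matrix.zero_mul]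
  -- the two blocks
  let It := {i : Fin n // h i = t}
  let Jt := {j : Fin k // h (f j) = t}
  let Jw := {j : Fin k // h (f j) = w - t}
  let X : Matrix It Jt C := S.submatrix Subtype.val Subtype.val
  let U : Matrix It Jw C := (b * S).submatrix Subtype.val Subtype.val
  have hXU : Xᵀ * U = 0 := by
    ext j l
    have h1 := congrFun (congrFun hSbS j.1) l.1
    rw [Matrix.mul_apply] at h1 ⊢
    rw [← Fintype.sum_subtype_add_sum_subtype (fun i => h i = t)] at h1
    have h2 : ∑ i : {x // ¬ h x = t}, Sᵀ j.1 i.1 * (b * S) i.1 l.1 = 0 := by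
      refine Finset.sum_eq_zero fun i _ => ?_
      rw [transpose_apply, hS0 i.1 j.1 (by rw [j.2]; exact i.2), zero_mul]
    rw [h2, add_zero] at h1
    exact h1
  have hX : X.rank = Fintype.card Jt := by
    rw [Matrix.rank, LinearMap.finrank_range_of_inj]
    · simp
    · rw [coe_mulVecLin]
      intro x y hxy
      have key : ∀ (z : Jt → C) (j : Jt), (X *ᵥ z) ⟨f j.1, j.2⟩ = z j := by
        intro z j
        rw [mulVec, dotProduct]
        rw [Finset.sum_eq_single j]
        · change S (f j.1) j.1 * z j = z j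
          rw [hSf, one_apply_eq, one_mul]
        · intro l _ hl
          change S (f j.1) l.1 * z l = 0
          rw [hSf, one_apply_ne (fun e => hl (Subtype.ext e.symm)), zero_mul]
        · intro e
          exact absurd (Finset.mem_univ _) e
      ext j
      rw [← key x j, ← key y j, hxy]
  have hU : U.rank = Fintype.card Jw := by
    rw [Matrix.rank, LinearMap.finrank_range_of_inj]
    · simp
    · rw [injective_iff_map_eq_zero]
      intro z hz
      rw [mulVecLin_apply] at hz
      let z' : Fin k → C := fun l => if hl : h (f l) = w - t then z ⟨l, hl⟩ else 0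
      have hz1 : ∀ l : Jw, z' l.1 = z l := fun l => by simp only [z', dif_pos l.2, Subtype.coe_eta]
      have hz2 : ∀ l : Fin k, h (f l) ≠ w - t → z' l = 0 := fun l hl => by simp only [z', dif_neg hl]
      have hbS0 : ∀ i l, h i ≠ t → h (f l) = w - t → (b * S) i l = 0 := by
        intro i l hi hl
        rw [Matrix.mul_apply]
        refine Finset.sum_eq_zero fun m _ => ?_
        by_cases hm : h m = h (f l)
        · rw [hb0 i m (by rw [hm, hl]; intro e; apply hi; omega), zero_mul]
        · rw [hS0 m l hm, mul_zero]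
      have h1 : (b * S) *ᵥ z' = 0 := by
        ext i
        rw [mulVec, dotProduct, Pi.zero_apply]
        by_cases hi : h i = t
        · have h2 := congrFun hz ⟨i, hi⟩
          rw [mulVec, dotProduct, Pi.zero_apply] at h2
          rw [← Fintype.sum_subtype_add_sum_subtype (fun l => h (f l) = w - t)]
          have h3 : ∑ l : {x // ¬ h (f x) = w - t}, (b * S) i l.1 * z' l.1 = 0 :=
            Finset.sum_eq_zero fun l _ => by rw [hz2 l.1 l.2, mul_zero]
          rw [h3, add_zero, ← h2]
          refine Finset.sum_congr rfl fun l _ => ?_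
          rw [hz1 l]
          rfl
        · refine Finset.sum_eq_zero fun l _ => ?_
          by_cases hl : h (f l) = w - t
          · rw [hbS0 i l hi hl, zero_mul]
          · rw [hz2 l hl, mul_zero]
      have h2 : S *ᵥ z' = 0 := by
        have h3 : b *ᵥ (S *ᵥ z') = 0 := by rw [mulVec_mulVec, h1]
        have h4 := congrArg (fun v => b⁻¹ *ᵥ v) h3
        simpa only [mulVec_mulVec, nonsing_inv_mul _ hbd, one_mulVec, mulVec_zero,
          ← Matrix.mul_assoc, Matrix.one_mul] using h4
      have h5 : ∀ l, z' l = 0 := by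
        intro l
        have h6 := congrFun h2 (f l)
        rw [mulVec, dotProduct, Pi.zero_apply, Finset.sum_eq_single l] at h6
        · rwa [hSf, one_apply_eq, one_mul] at h6
        · intro m _ hm
          rw [hSf, one_apply_ne hm.symm, zero_mul]
        · intro e
          exact absurd (Finset.mem_univ _) e
      ext l
      rw [← hz1 l, h5]
      rfl
  have h1 := rank_add_rank_le_card_of_mul_eq_zero hXU
  rw [rank_transpose, hX, hU] at h1
  rw [Fintype.card_subtype, Fintype.card_subtype, Fintype.card_subtype] at h1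
  exact h1

end Pool.Agent.L7h37.HT
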