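import Pool.Agent.L7h62.HT.Stm

set_option autoImplicit false

/-! Project HT: `S_TR` (Tate's normalized traces). -/

namespace Pool.Agent.L7h37.HT

open Pool.Agent.L7h62.HT Pool.Agent.W292.FM Finset

variable (ℓ : ℕ) [hℓ : Fact ℓ.Prime]

theorem gal_root (s : ℕ) (g : GLo ℓ) (t : PadicAlgCl ℓ) (ht : t ^ ℓ ^ s = 1) :
    g t = t ^ (((chiL ℓ g : ℤ_[ℓ]ˣ) : ℤ_[ℓ]).toZModPow s).val :=
  cyclotomicCharacter.spec ℓ (MulSemiringAction.toRingAut Gal(PadicAlgCl ℓ/ℚ_[ℓ])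
    (PadicAlgCl ℓ) g) t ht

theorem norm_chi (g : GLo ℓ) : ‖chiQ ℓ g - 1‖ ≤ (ℓ : ℝ) ^ (-3 : ℤ) ↔
    (((chiL ℓ g : ℤ_[ℓ]ˣ) : ℤ_[ℓ])).toZModPow 3 = 1 := by
  have h1 : chiQ ℓ g - 1 = (((chiL ℓ g : ℤ_[ℓ]ˣ) : ℤ_[ℓ]) - 1 : ℤ_[ℓ]) := by
    rw [chiQ]; push_cast; rfl
  have h2 := PadicInt.norm_le_pow_iff_mem_span_pow (((chiL ℓ g : ℤ_[ℓ]ˣ) : ℤ_[ℓ]) - 1) 3
  rw [h1, ← PadicInt.norm_def]
  rw [← PadicInt.ker_toZModPow, RingHom.mem_ker, map_sub, map_one, sub_eq_zero] at h2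
  exact_mod_cast h2

variable {s : ℕ} {ζ : PadicAlgCl ℓ}

theorem exists_exp (hs : 3 ≤ s) (hζ : IsPrimitiveRoot ζ (ℓ ^ s)) (g : GLo ℓ)
    (hg : ‖chiQ ℓ g - 1‖ ≤ (ℓ : ℝ) ^ (-3 : ℤ)) : ∃ i : ℕ, g ζ = ζ ^ (1 + ℓ ^ 3 * i) := by
  rw [norm_chi] at hg
  set a := (((chiL ℓ g : ℤ_[ℓ]ˣ) : ℤ_[ℓ]).toZModPow s).val with ha
  have h1 : ((a : ℕ) : ZMod (ℓ ^ 3)) = 1 := by
    rw [← hg, ← PadicInt.cast_toZModPow 3 s hs, ha, ZMod.natCast_val]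
  have h2 : 1 < ℓ ^ 3 := Nat.one_lt_pow (by norm_num) hℓ.out.one_lt
  have h3 : a % ℓ ^ 3 = 1 := by
    have h4 : ((a : ℕ) : ZMod (ℓ ^ 3)) = ((1 : ℕ) : ZMod (ℓ ^ 3)) := by rw [h1]; simp
    rw [ZMod.natCast_eq_natCast_iff'] at h4
    rw [h4, Nat.mod_eq_of_lt h2]
  refine ⟨a / ℓ ^ 3, ?_⟩
  rw [gal_root ℓ s g ζ hζ.pow_eq_one, ← ha]
  congr 1
  have := Nat.div_add_mod a (ℓ ^ 3)
  omega

theorem small_of_exp (hs : 3 ≤ s) (hζ : IsPrimitiveRoot ζ (ℓ ^ s)) (g : GLo ℓ) (i : ℕ)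
    (hg : g ζ = ζ ^ (1 + ℓ ^ 3 * i)) : ‖chiQ ℓ g - 1‖ ≤ (ℓ : ℝ) ^ (-3 : ℤ) := by
  rw [norm_chi]
  set a := (((chiL ℓ g : ℤ_[ℓ]ˣ) : ℤ_[ℓ]).toZModPow s).val with ha
  rw [gal_root ℓ s g ζ hζ.pow_eq_one, ← ha] at hg
  have hζ0 : ζ ≠ 0 := hζ.ne_zero (pow_ne_zero _ hℓ.out.ne_zero)
  have h0 : a ≡ 1 + ℓ ^ 3 * i [MOD ℓ ^ s] := by
    rw [Nat.modEq_iff_dvd, ← hζ.zpow_eq_one_iff_dvd, zpow_sub₀ hζ0, zpow_natCast, zpow_natCast,
      ← hg, div_self (pow_ne_zero _ hζ0)]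
  rw [← PadicInt.cast_toZModPow 3 s hs, ← ZMod.natCast_val, ← ha]
  have h1 : a ≡ 1 + ℓ ^ 3 * i [MOD ℓ ^ 3] := h0.of_dvd (pow_dvd_pow ℓ hs)
  have h2 := (ZMod.natCast_eq_natCast_iff _ _ _).2 h1
  rw [h2]
  push_cast
  have h3 : ((ℓ : ZMod (ℓ ^ 3))) ^ 3 = 0 := by
    have := ZMod.natCast_self (ℓ ^ 3)
    push_cast at this
    exact this
  rw [h3, zero_mul, add_zero]

theorem geo {A : Type} [Field A] (x : A) (n : ℕ) (hx : x ^ n = 1) [Decidable (x = 1)] :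
    ∑ i ∈ range n, x ^ i = if x = 1 then (n : A) else 0 := by
  split_ifs with h
  · rw [h]; simp
  · have h1 : (x - 1) * ∑ i ∈ range n, x ^ i = 0 := by
      rw [mul_geom_sum, hx, sub_self]
    exact (mul_eq_zero.1 h1).resolve_left (sub_ne_zero.2 h)

/-- The trace. -/
noncomputable def Rt (s : ℕ) (σ : ℕ → ℕ → GLo ℓ) (j : ℕ) : PadicAlgCl ℓ →ₗ[ℚ_[ℓ]] PadicAlgCl ℓ :=
  ((ℓ : ℚ_[ℓ]) ^ (s - j))⁻¹ • ∑ i ∈ range (ℓ ^ (s - j)), (σ j i).toLinearMap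

theorem ell_ne : (ℓ : ℚ_[ℓ]) ≠ 0 := by exact_mod_cast hℓ.out.ne_zero

theorem Rt_pow (hζ : IsPrimitiveRoot ζ (ℓ ^ s)) (σ : ℕ → ℕ → GLo ℓ) (j : ℕ) (hj : j ≤ s)
    (hσ : ∀ i, σ j i ζ = ζ ^ (1 + ℓ ^ j * i)) (t : ℕ) :
    Rt ℓ s σ j (ζ ^ t) = if ℓ ^ (s - j) ∣ t then ζ ^ t else 0 := by
  classical
  have h0 : ℓ ^ s = ℓ ^ j * ℓ ^ (s - j) := by rw [← pow_add, Nat.add_sub_cancel' hj]
  have h1 : ∀ i, (σ j i).toLinearMap (ζ ^ t) = ζ ^ t * (ζ ^ (ℓ ^ j * t)) ^ i := by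
    intro i
    rw [AlgEquiv.toLinearMap_apply, map_pow, hσ, ← pow_mul, ← pow_mul, ← pow_add]
    congr 1
    ring
  have h2 : (ζ ^ (ℓ ^ j * t)) ^ (ℓ ^ (s - j)) = 1 := by
    rw [← pow_mul, show ℓ ^ j * t * ℓ ^ (s - j) = ℓ ^ s * t by rw [h0]; ring, pow_mul,
      hζ.pow_eq_one, one_pow]
  have h3 : ζ ^ (ℓ ^ j * t) = 1 ↔ ℓ ^ (s - j) ∣ t := by
    rw [hζ.pow_eq_one_iff_dvd, h0, Nat.mul_dvd_mul_iff_left (pow_pos hℓ.out.pos _)]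
  rw [Rt, LinearMap.smul_apply, LinearMap.sum_apply]
  simp_rw [h1]
  rw [← mul_sum, geo _ _ h2]
  simp only [h3]
  split_ifs with h
  · have e : ζ ^ t * ((ℓ ^ (s - j) : ℕ) : PadicAlgCl ℓ) = ((ℓ : ℚ_[ℓ]) ^ (s - j)) • ζ ^ t := by
      rw [Algebra.smul_def, mul_comm]
      push_cast
      rfl
    rw [e, smul_smul, inv_mul_cancel₀ (pow_ne_zero _ (ell_ne ℓ)), one_smul]
  · rw [mul_zero, smul_zero]

/-- The field. -/
noncomputable abbrev Ks (ζ : PadicAlgCl ℓ) : IntermediateField ℚ_[ℓ] (PadicAlgCl ℓ) :=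
  IntermediateField.adjoin ℚ_[ℓ] {ζ}

theorem zeta_mem (ζ : PadicAlgCl ℓ) : ζ ∈ Ks ℓ ζ :=
  IntermediateField.mem_adjoin_simple_self _ _

/-- Every element of the field is a combination of powers of `ζ`. -/
theorem exists_comb (hB : S_BALL ℓ) (hs : 1 ≤ s) (hζ : IsPrimitiveRoot ζ (ℓ ^ s))
    (z : PadicAlgCl ℓ) (hz : z ∈ Ks ℓ ζ) (hz0 : z ≠ 0) :
    ∃ (n : ℤ) (c : ℕ → ℤ_[ℓ]), (ℓ : ℝ) ^ n ≤ ℓ * ‖z‖ ∧
      z = ((ℓ : ℚ_[ℓ]) ^ n)⁻¹ • ∑ t ∈ range (ℓ ^ s), ((c t : ℚ_[ℓ])) • ζ ^ t := by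
  have hl1 : (1 : ℝ) < ℓ := by exact_mod_cast hℓ.out.one_lt
  obtain ⟨n, hn1, hn2⟩ := exists_mem_Ioc_zpow (norm_pos_iff.2 hz0) hl1
  have hle := zpow_ne_zero (n + 1) (ell_ne ℓ)
  obtain ⟨c, hc⟩ := hB s hs ζ hζ (((ℓ : ℚ_[ℓ]) ^ (n + 1)) • z)
    ((Ks ℓ ζ).smul_mem hz) (by
      rw [norm_smul, norm_zpow, Padic.norm_p, inv_zpow, inv_mul_le_iff₀ (by positivity), mul_one]
      exact hn2)
  refine ⟨n + 1, c, ?_, ?_⟩
  · rw [zpow_add₀ (by positivity), zpow_one, mul_comm]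
    exact mul_le_mul_of_nonneg_left hn1.le (by positivity)
  · rw [← hc, smul_smul, inv_mul_cancel₀ hle, one_smul]

/-- Linear maps which agree on the powers of `ζ`. -/
theorem ext_pow (hB : S_BALL ℓ) (hs : 1 ≤ s) (hζ : IsPrimitiveRoot ζ (ℓ ^ s))
    (T T' : PadicAlgCl ℓ →ₗ[ℚ_[ℓ]] PadicAlgCl ℓ) (h : ∀ t, T (ζ ^ t) = T' (ζ ^ t))
    (z : PadicAlgCl ℓ) (hz : z ∈ Ks ℓ ζ) : T z = T' z := by
  by_cases hz0 : z = 0
  · rw [hz0, map_zero, map_zero]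
  obtain ⟨n, c, -, hc⟩ := exists_comb ℓ hB hs hζ z hz hz0
  rw [hc, map_smul, map_smul, map_sum, map_sum]
  congr 1
  refine sum_congr rfl fun t _ => ?_
  rw [map_smul, map_smul, h]

theorem norm_zeta (hζ : IsPrimitiveRoot ζ (ℓ ^ s)) : ‖ζ‖ = 1 := by
  have h1 : ‖ζ‖ ^ (ℓ ^ s) = 1 := by rw [← norm_pow, hζ.pow_eq_one, norm_one]
  exact (pow_eq_one_iff_of_nonneg (norm_nonneg _) (pow_ne_zero _ hℓ.out.ne_zero)).1 h1

/-- The norm of a linear map on the field. -/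
theorem norm_le_of_pow (hB : S_BALL ℓ) (hs : 1 ≤ s) (hζ : IsPrimitiveRoot ζ (ℓ ^ s))
    (T : PadicAlgCl ℓ →ₗ[ℚ_[ℓ]] PadicAlgCl ℓ) (h : ∀ t, ‖T (ζ ^ t)‖ ≤ 1)
    (z : PadicAlgCl ℓ) (hz : z ∈ Ks ℓ ζ) : ‖T z‖ ≤ ℓ * ‖z‖ := by
  by_cases hz0 : z = 0
  · rw [hz0, map_zero, norm_zero, mul_zero]
  obtain ⟨n, c, hn, hc⟩ := exists_comb ℓ hB hs hζ z hz hz0
  refine le_trans ?_ hn
  conv_lhs => rw [hc]
  rw [map_smul, map_sum, norm_smul, norm_inv, norm_zpow, Padic.norm_p, inv_zpow, inv_inv]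
  have h1 : ‖∑ t ∈ range (ℓ ^ s), T ((c t : ℚ_[ℓ]) • ζ ^ t)‖ ≤ 1 := by
    refine IsUltrametricDist.norm_sum_le_of_forall_le_of_nonneg zero_le_one fun t _ => ?_
    rw [map_smul, norm_smul]
    have h2 : ‖(c t : ℚ_[ℓ])‖ ≤ 1 := (c t).2
    exact mul_le_one₀ h2 (norm_nonneg _) (h t)
  calc (ℓ : ℝ) ^ n * ‖∑ t ∈ range (ℓ ^ s), T ((c t : ℚ_[ℓ]) • ζ ^ t)‖ ≤ (ℓ : ℝ) ^ n * 1 :=
        mul_le_mul_of_nonneg_left h1 (by positivity)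
    _ = (ℓ : ℝ) ^ n := mul_one _

theorem gal_mem (hB : S_BALL ℓ) (hs : 1 ≤ s) (hζ : IsPrimitiveRoot ζ (ℓ ^ s)) (g : GLo ℓ)
    (z : PadicAlgCl ℓ) (hz : z ∈ Ks ℓ ζ) : g z ∈ Ks ℓ ζ := by
  by_cases hz0 : z = 0
  · rw [hz0, map_zero]
    exact (Ks ℓ ζ).zero_mem
  obtain ⟨n, c, -, hc⟩ := exists_comb ℓ hB hs hζ z hz hz0
  have e : g z = g.toLinearMap z := rfl
  rw [e, hc, map_smul, map_sum]
  refine (Ks ℓ ζ).smul_mem (sum_mem fun t _ => ?_)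
  rw [map_smul, AlgEquiv.toLinearMap_apply, map_pow, gal_root ℓ s g ζ hζ.pow_eq_one]
  exact (Ks ℓ ζ).smul_mem (pow_mem (pow_mem (zeta_mem ℓ ζ) _) _)

theorem s_TR (hB : S_BALL ℓ) (hA : S_AUT ℓ) : S_TR ℓ := by
  classical
  intro s hs ζ hζ
  have hs1 : 1 ≤ s := by omega
  have hl1 : (1 : ℝ) < ℓ := by exact_mod_cast hℓ.out.one_lt
  have hl0 : (0 : ℝ) < ℓ := by linarith
  have : ∀ j i : ℕ, ∃ σ : GLo ℓ, 3 ≤ j → σ ζ = ζ ^ (1 + ℓ ^ j * i) := by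
    intro j i
    by_cases hj : 3 ≤ j
    · obtain ⟨σ, hσ⟩ := hA s hs1 ζ hζ (1 + ℓ ^ j * i) (by
        obtain ⟨j', rfl⟩ := Nat.exists_eq_add_of_le hj
        rw [show ℓ ^ (3 + j') * i = ℓ * (ℓ ^ (2 + j') * i) by ring]
        simp)
      exact ⟨σ, fun _ => hσ⟩
    · exact ⟨1, fun h => absurd h hj⟩
  choose σ hσ using this
  have hζz := norm_zeta ℓ hζ
  have hpow : ∀ j, 3 ≤ j → j ≤ s → ∀ t, Rt ℓ s σ j (ζ ^ t) = if ℓ ^ (s - j) ∣ t then ζ ^ t else 0 :=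
    fun j hj hjs t => Rt_pow ℓ hζ σ j hjs (fun i => hσ j i hj) t
  have hnorm : ∀ j, 3 ≤ j → j ≤ s → ∀ z ∈ Ks ℓ ζ, ‖Rt ℓ s σ j z‖ ≤ ℓ * ‖z‖ := by
    intro j hj hjs z hz
    refine norm_le_of_pow ℓ hB hs1 hζ _ (fun t => ?_) z hz
    rw [hpow j hj hjs t]
    split_ifs
    · rw [norm_pow, hζz, one_pow]
    · rw [norm_zero]; exact zero_le_one
  have hcop : ∀ j i t u : ℕ, 1 ≤ j → (ℓ ^ u ∣ (1 + ℓ ^ j * i) * t ↔ ℓ ^ u ∣ t) := by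
    intro j i t u hj
    have h1 : Nat.Coprime (ℓ ^ u) (1 + ℓ ^ j * i) := by
      apply Nat.Coprime.pow_left
      obtain ⟨j', rfl⟩ := Nat.exists_eq_add_of_le hj
      rw [show ℓ ^ (1 + j') * i = ℓ * (ℓ ^ j' * i) by ring]
      simp
    exact ⟨fun h => h1.dvd_of_dvd_mul_left h, fun h => h.mul_left _⟩
  refine ⟨Rt ℓ s σ 3, fun z hz => ⟨hnorm 3 le_rfl (by omega) z hz, fun g hg => ⟨?_, ?_⟩,
    fun r hr => ?_⟩⟩
  · obtain ⟨i, hi⟩ := exists_exp ℓ (by omega) hζ g hg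
    refine ext_pow ℓ hB hs1 hζ (g.toLinearMap ∘ₗ Rt ℓ s σ 3) (Rt ℓ s σ 3) (fun t => ?_) z hz
    rw [LinearMap.comp_apply, hpow 3 le_rfl (by omega), AlgEquiv.toLinearMap_apply]
    split_ifs with h
    · obtain ⟨t', rfl⟩ := h
      rw [map_pow, hi, ← pow_mul, show (1 + ℓ ^ 3 * i) * (ℓ ^ (s - 3) * t') =
        ℓ ^ (s - 3) * t' + (ℓ ^ 3 * ℓ ^ (s - 3)) * (i * t') by ring, ← pow_add,
        Nat.add_sub_cancel' (by omega : 3 ≤ s), pow_add, pow_mul ζ (ℓ ^ s), hζ.pow_eq_one, one_pow,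
        mul_one]
    · rw [map_zero]
  · obtain ⟨i, hi⟩ := exists_exp ℓ (by omega) hζ g hg
    refine ext_pow ℓ hB hs1 hζ (Rt ℓ s σ 3 ∘ₗ g.toLinearMap) (Rt ℓ s σ 3) (fun t => ?_) z hz
    rw [LinearMap.comp_apply, AlgEquiv.toLinearMap_apply, map_pow, hi, ← pow_mul,
      hpow 3 le_rfl (by omega), hpow 3 le_rfl (by omega)]
    simp only [hcop 3 i t (s - 3) (by norm_num)]
    split_ifs with h
    · obtain ⟨t', rfl⟩ := h
      rw [show (1 + ℓ ^ 3 * i) * (ℓ ^ (s - 3) * t') =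
        ℓ ^ (s - 3) * t' + (ℓ ^ 3 * ℓ ^ (s - 3)) * (i * t') by ring, ← pow_add,
        Nat.add_sub_cancel' (by omega : 3 ≤ s), pow_add, pow_mul ζ (ℓ ^ s), hζ.pow_eq_one, one_pow,
        mul_one]
    · rfl
  · have hr0 : 0 ≤ r := by
      have h1 := hr 1 (by
        rw [norm_chi, map_one, Units.val_one, map_one])
      exact (norm_nonneg _).trans h1
    have hstep : ∀ j, 3 ≤ j → j < s → ‖Rt ℓ s σ (j + 1) z - Rt ℓ s σ j z‖ ≤ (ℓ : ℝ) ^ 2 * r := by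
      intro j hj hjs
      have e1 : Rt ℓ s σ (j + 1) z - Rt ℓ s σ j z =
          ((ℓ : ℚ_[ℓ])⁻¹ • ∑ i ∈ range ℓ, (Rt ℓ s σ (j + 1) ∘ₗ
            (LinearMap.id - (σ j i).toLinearMap))) z := by
        refine ext_pow ℓ hB hs1 hζ (Rt ℓ s σ (j + 1) - Rt ℓ s σ j) _ (fun t => ?_) z hz
        rw [LinearMap.sub_apply, hpow (j + 1) (by omega) (by omega), hpow j hj hjs.le,
          LinearMap.smul_apply, LinearMap.sum_apply]
        have h1 : ∀ i, (Rt ℓ s σ (j + 1) ∘ₗ (LinearMap.id - (σ j i).toLinearMap)) (ζ ^ t) =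
            if ℓ ^ (s - (j + 1)) ∣ t then ζ ^ t - ζ ^ t * (ζ ^ (ℓ ^ j * t)) ^ i else 0 := by
          intro i
          rw [LinearMap.comp_apply, LinearMap.sub_apply, LinearMap.id_apply,
            AlgEquiv.toLinearMap_apply, map_pow, hσ j i hj, map_sub, ← pow_mul,
            hpow (j + 1) (by omega) (by omega), hpow (j + 1) (by omega) (by omega)]
          simp only [hcop j i t _ (by omega : 1 ≤ j)]
          split_ifs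
          · rw [← pow_mul, ← pow_add]
            congr 2
            ring
          · rw [sub_zero]
        simp_rw [h1]
        have h0 : ℓ ^ s = ℓ ^ j * ℓ ^ (s - j) := by rw [← pow_add, Nat.add_sub_cancel' hjs.le]
        have h0' : ℓ ^ (s - j) = ℓ * ℓ ^ (s - (j + 1)) := by
          rw [← pow_succ']
          congr 1
          omega
        by_cases h : ℓ ^ (s - (j + 1)) ∣ t
        · simp only [if_pos h]
          rw [sum_sub_distrib, ← mul_sum, sum_const, card_range]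
          have h2 : (ζ ^ (ℓ ^ j * t)) ^ ℓ = 1 := by
            obtain ⟨t', rfl⟩ := h
            rw [← pow_mul, show ℓ ^ j * (ℓ ^ (s - (j + 1)) * t') * ℓ =
              (ℓ ^ j * (ℓ * ℓ ^ (s - (j + 1)))) * t' by ring, ← h0', ← h0, pow_mul, hζ.pow_eq_one,
              one_pow]
          have h3 : ζ ^ (ℓ ^ j * t) = 1 ↔ ℓ ^ (s - j) ∣ t := by
            rw [hζ.pow_eq_one_iff_dvd, h0, Nat.mul_dvd_mul_iff_left (pow_pos hℓ.out.pos _)]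
          rw [geo _ _ h2]
          simp only [h3]
          have h4 : (ℓ : ℚ_[ℓ])⁻¹ • (ℓ • ζ ^ t) = ζ ^ t := by
            rw [← Nat.cast_smul_eq_nsmul ℚ_[ℓ], smul_smul, inv_mul_cancel₀ (ell_ne ℓ), one_smul]
          split_ifs with h5
          · rw [mul_comm (ζ ^ t), ← nsmul_eq_mul, sub_self, sub_self, smul_zero]
          · rw [mul_zero, sub_zero, sub_zero, h4]
        · have h5 : ¬ ℓ ^ (s - j) ∣ t := fun e => h ((Dvd.intro_left ℓ h0'.symm).trans e)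
          simp only [if_neg h, if_neg h5]
          rw [sum_const_zero, smul_zero, sub_zero]
      rw [e1, LinearMap.smul_apply, LinearMap.sum_apply, norm_smul, norm_inv, Padic.norm_p,
        inv_inv]
      have h6 : ‖∑ i ∈ range ℓ, (Rt ℓ s σ (j + 1) ∘ₗ (LinearMap.id - (σ j i).toLinearMap)) z‖ ≤
          ℓ * r := by
        refine IsUltrametricDist.norm_sum_le_of_forall_le_of_nonneg (by positivity) fun i _ => ?_
        rw [LinearMap.comp_apply, LinearMap.sub_apply, LinearMap.id_apply,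
          AlgEquiv.toLinearMap_apply]
        refine (hnorm (j + 1) (by omega) (by omega) _ (sub_mem hz (gal_mem ℓ hB hs1 hζ _ z hz))).trans
          (mul_le_mul_of_nonneg_left ?_ hl0.le)
        rw [norm_sub_rev]
        refine hr _ (small_of_exp ℓ (by omega) hζ _ (ℓ ^ (j - 3) * i) ?_)
        rw [hσ j i hj]
        congr 2
        rw [← mul_assoc, ← pow_add, Nat.add_sub_cancel' hj]
      calc (ℓ : ℝ) * ‖∑ i ∈ range ℓ,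
            (Rt ℓ s σ (j + 1) ∘ₗ (LinearMap.id - (σ j i).toLinearMap)) z‖ ≤ ℓ * (ℓ * r) :=
            mul_le_mul_of_nonneg_left h6 hl0.le
        _ = (ℓ : ℝ) ^ 2 * r := by ring
    have hind : ∀ d, d ≤ s - 3 → ‖z - Rt ℓ s σ (s - d) z‖ ≤ (ℓ : ℝ) ^ 2 * r := by
      intro d
      induction d with
      | zero =>
        intro _
        have : Rt ℓ s σ s z = z := by
          refine ext_pow ℓ hB hs1 hζ (Rt ℓ s σ s) LinearMap.id (fun t => ?_) z hz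
          rw [hpow s (by omega) le_rfl]
          simp
        rw [Nat.sub_zero, this, sub_self, norm_zero]
        positivity
      | succ d ih =>
        intro hd
        have h1 := ih (by omega)
        have h2 := hstep (s - (d + 1)) (by omega) (by omega)
        rw [show s - (d + 1) + 1 = s - d by omega] at h2
        have h3 : z - Rt ℓ s σ (s - (d + 1)) z = (z - Rt ℓ s σ (s - d) z) +
            (Rt ℓ s σ (s - d) z - Rt ℓ s σ (s - (d + 1)) z) := by abel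
        rw [h3]
        exact (IsUltrametricDist.norm_add_le_max _ _).trans (max_le h1 h2)
    have := hind (s - 3) le_rfl
    rwa [show s - (s - 3) = 3 by omega] at this

end Pool.Agent.L7h37.HT
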